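import Pool.Agent.helper55.ZI.Spec2

/-!
# Row zi:PNT
-/

set_option autoImplicit false

namespace Pool.Agent.helper79.ZI

open Pool.Agent.ZI

universe u

theorem PNT : PNT_stmt.{u} := by
  intro R _ N _ _ hB hU
  refine ⟨?_, hU.1, ?_⟩
  · intro M _ _ f hf
    have hinj : Module.Injective R N := Module.Baer.injective hB
    obtain ⟨g, hg⟩ := hinj.out f hf.1 (LinearMap.id : N →ₗ[R] N)
    exact ⟨g, fun x => hg x⟩
  · intro A B hAB
    by_cases hA : A = ⊥
    · exact Or.inl hA
    · by_cases hB' : B = ⊥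
      · exact Or.inr hB'
      · exact absurd hAB.inf_eq_bot (hU.2 A B hA hB')

end Pool.Agent.helper79.ZI
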